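import Pool.Agent.helper14.Kumar.Disc

open Finset

namespace Pool.Agent.helper14.Kumar

section trans

variable {p : ℕ} [hp : Fact p.Prime]

/-- Translations of `ZMod p`. -/
def T (a : ZMod p) : Equiv.Perm (ZMod p) := Equiv.addRight a

lemma T_apply (a x : ZMod p) : T a x = x + a := rfl

lemma T_pow (a : ZMod p) (n : ℕ) (x : ZMod p) : (T a ^ n) x = x + n * a := by
  induction n generalizing x with
  | zero => simp
  | succ n ih =>
    rw [pow_succ, Equiv.Perm.mul_apply, T_apply, ih]
    push_cast
    ring

lemma T_pow_p (a : ZMod p) : T a ^ p = 1 := by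
  ext x
  rw [T_pow]
  simp

lemma sign_T (h2 : p ≠ 2) (a : ZMod p) : Equiv.Perm.sign (T a) = 1 := by
  have h1 : Equiv.Perm.sign (T a) ^ p = 1 := by
    rw [← map_pow, T_pow_p, map_one]
  have hodd : Odd p := hp.out.odd_of_ne_two h2
  rcases Int.units_eq_one_or (Equiv.Perm.sign (T a)) with h | h
  · exact h
  · rw [h, hodd.neg_one_pow] at h1
    exact absurd h1 (by decide)

lemma eq_T_of_comm (π : Equiv.Perm (ZMod p)) (h : ∀ x, π (x + 1) = π x + 1) : π = T (π 0) := by
  have h1 : ∀ n : ℕ, π (n : ZMod p) = n + π 0 := by
    intro n
    induction n with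
    | zero => simp
    | succ n ih =>
      push_cast
      rw [h, ih]
      ring
  ext x
  have hx : ((x.val : ℕ) : ZMod p) = x := ZMod.natCast_zmod_val x
  have := h1 x.val
  rw [hx] at this
  rw [this, T_apply]

variable {W : Type*} [Fintype W] [DecidableEq W]

/-- number of injective maps with a prescribed value -/
def cc (p : ℕ) [Fact p.Prime] (t0 : W) : ℕ :=
  (univ.filter fun a : W → ZMod p => Function.Injective a ∧ a t0 = 0).card

lemma cc_mul (t0 : W) : p * cc p t0 = p.descFactorial (Fintype.card W) := by
  have h1 : (univ.filter fun a : W → ZMod p => Function.Injective a).card =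
      p.descFactorial (Fintype.card W) := by
    rw [← Fintype.card_subtype]
    have h2 := Fintype.card_embedding_eq (α := W) (β := ZMod p)
    rw [ZMod.card] at h2
    rw [← h2]
    exact Fintype.card_congr (Equiv.subtypeInjectiveEquivEmbedding W (ZMod p))
  rw [← h1]
  have h3 : (univ.filter fun a : W → ZMod p => Function.Injective a).card =
      ∑ b : ZMod p, (univ.filter fun a : W → ZMod p => Function.Injective a ∧ a t0 = b).card := by
    rw [Finset.card_eq_sum_card_fiberwise (f := fun a : W → ZMod p => a t0) (t := univ)
      (fun a _ => mem_coe.mpr (mem_univ _))]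
    refine Finset.sum_congr rfl fun b _ => ?_
    rw [Finset.filter_filter]
  have h4 : ∀ b : ZMod p,
      (univ.filter fun a : W → ZMod p => Function.Injective a ∧ a t0 = b).card = cc p t0 := by
    intro b
    unfold cc
    refine Finset.card_nbij' (fun a t => a t - b) (fun a t => a t + b) ?_ ?_ ?_ ?_
    · intro a ha
      simp only [Finset.coe_filter, Finset.mem_univ, true_and, Set.mem_ofPred_eq] at ha ⊢
      refine ⟨fun x y hxy => ha.1 (sub_left_injective hxy), ?_⟩
      rw [ha.2]
      simp
    · intro a ha
      simp only [Finset.coe_filter, Finset.mem_univ, true_and, Set.mem_ofPred_eq] at ha ⊢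
      refine ⟨fun x y hxy => ha.1 (add_left_injective b hxy), ?_⟩
      rw [ha.2]
      simp
    · intro a _
      funext t
      simp
    · intro a _
      funext t
      simp
  rw [h3, Finset.sum_congr rfl fun b _ => h4 b, Finset.sum_const, Finset.card_univ, ZMod.card,
    smul_eq_mul]

lemma cc_ne_zero (t0 : W) (hle : Fintype.card W ≤ p) : ((cc p t0 : ℕ) : ZMod p) ≠ 0 := by
  intro h
  rw [ZMod.natCast_eq_zero_iff] at h
  have hpos : 0 < Fintype.card W := Fintype.card_pos_iff.mpr ⟨t0⟩
  obtain ⟨w, hw⟩ : ∃ w, Fintype.card W = w + 1 := ⟨Fintype.card W - 1, by omega⟩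
  obtain ⟨q, hq⟩ : ∃ q, p = q + 1 := ⟨p - 1, by have := hp.out.pos; omega⟩
  have h1 := cc_mul (p := p) t0
  have h2 : cc p t0 = q.descFactorial w := by
    have h3 : p.descFactorial (Fintype.card W) = p * q.descFactorial w := by
      rw [hw]
      nth_rewrite 1 [hq]
      rw [Nat.succ_descFactorial_succ, hq]
    rw [h3] at h1
    exact Nat.eq_of_mul_eq_mul_left hp.out.pos h1
  have h4 : w ≤ q := by omega
  have h5 := Nat.factorial_mul_descFactorial h4
  rw [h2] at h
  have h6 : p ∣ q.factorial := by
    rw [← h5]
    exact Dvd.dvd.mul_left h _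
  rw [hp.out.dvd_factorial] at h6
  omega

theorem Lone_ne_zero (h2 : p ≠ 2) (t0 : W) (hle : Fintype.card W ≤ p) :
    ((Lone (ZMod p) t0 : ℤ) : ZMod p) ≠ 0 := by
  classical
  let F : (W → Equiv.Perm (ZMod p)) → ZMod p := fun π =>
    if π t0 = 1 then ((D π : ℤ) : ZMod p) else 0
  have h1 : ((Lone (ZMod p) t0 : ℤ) : ZMod p) = ∑ π, F π := by
    unfold Lone
    rw [Int.cast_sum]
    refine Finset.sum_congr rfl fun π _ => ?_
    simp only [F]
    split_ifs <;> simp
  let tf : W → Equiv.Perm (ZMod p) := fun _ => T 1
  let e : Equiv.Perm (W → Equiv.Perm (ZMod p)) := MulAut.toPerm _ (MulAut.conj tf)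
  have he : ∀ π t, e π t = T 1 * π t * (T 1)⁻¹ := by
    intro π t
    rfl
  have hep : e ^ p = 1 := by
    change (MulAut.toPerm _ (MulAut.conj tf)) ^ p = 1
    rw [← map_pow, ← map_pow]
    have : tf ^ p = 1 := by
      funext t
      exact T_pow_p 1
    rw [this, map_one, map_one]
  have hF : ∀ π, F (e π) = F π := by
    intro π
    simp only [F]
    have h3 : e π t0 = 1 ↔ π t0 = 1 := by
      rw [he]
      constructor
      · intro h
        rw [mul_inv_eq_one] at h
        exact mul_eq_left.mp h
      · intro h
        rw [h]
        simp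
    have h4 : D (e π) = D π := by
      unfold D
      have h5 : (∀ t t' x, e π t x = e π t' x → t = t') ↔
          (∀ t t' x, π t x = π t' x → t = t') := by
        constructor
        · intro h t t' x hx
          refine h t t' (T 1 x) ?_
          have h13 : (T 1)⁻¹ (T 1 x) = x := by
            rw [Equiv.Perm.inv_eq_iff_eq]
          rw [he, he]
          simp only [Equiv.Perm.mul_apply]
          rw [h13, hx]
        · intro h t t' x hx
          rw [he, he] at hx
          simp only [Equiv.Perm.mul_apply] at hx
          exact h t t' _ ((T 1).injective hx)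
      have h6 : ∀ t, Equiv.Perm.sign (e π t) = Equiv.Perm.sign (π t) := by
        intro t
        rw [he, Equiv.Perm.sign_mul, Equiv.Perm.sign_mul, Equiv.Perm.sign_inv, mul_right_comm,
          Int.units_mul_self, one_mul]
      simp only [h5, h6]
    simp only [h3, h4]
  rw [h1, sum_eq_sum_fixed e hep F hF]
  have h7 : (∑ π, if e π = π then F π else 0) =
      ∑ a : W → ZMod p, if Function.Injective a ∧ a t0 = 0 then (1 : ZMod p) else 0 := by
    symm
    refine Finset.sum_of_injOn (fun (a : W → ZMod p) t => T (a t)) ?_ ?_ ?_ ?_
    · intro a _ b _ hab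
      funext t
      have := congrArg (fun σ : Equiv.Perm (ZMod p) => σ 0) (congrFun hab t)
      simpa [T_apply] using this
    · intro a _
      simp
    · intro π _ hπ
      rw [if_neg]
      intro hfix
      apply hπ
      refine ⟨fun t => π t 0, by simp, ?_⟩
      funext t
      symm
      refine eq_T_of_comm (π t) ?_
      intro x
      have h8 := congrFun hfix t
      rw [he] at h8
      have h9 := congrArg (fun σ : Equiv.Perm (ZMod p) => σ (x + 1)) h8
      simp only [Equiv.Perm.mul_apply] at h9
      have h10 : (T 1)⁻¹ (x + 1) = x := by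
        rw [Equiv.Perm.inv_eq_iff_eq, T_apply]
      rw [h10, T_apply] at h9
      exact h9.symm
    · intro a _
      have h8 : e (fun t => T (a t)) = fun t => T (a t) := by
        funext t
        rw [he]
        ext x
        simp only [Equiv.Perm.mul_apply, T_apply]
        have h10 : (T 1)⁻¹ x = x - 1 := by
          rw [Equiv.Perm.inv_eq_iff_eq, T_apply]
          ring
        rw [h10]
        ring
      rw [if_pos h8]
      simp only [F]
      have h9 : T (a t0) = 1 ↔ a t0 = 0 := by
        constructor
        · intro h
          have := congrArg (fun σ : Equiv.Perm (ZMod p) => σ 0) h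
          simpa [T_apply] using this
        · intro h
          ext x
          rw [h, T_apply]
          simp
      have h11 : ((D (fun t => T (a t)) : ℤ) : ZMod p) =
          if Function.Injective a then 1 else 0 := by
        unfold D
        have h12 : (∀ t t' x, T (a t) x = T (a t') x → t = t') ↔ Function.Injective a := by
          constructor
          · intro h t t' htt
            exact h t t' 0 (by rw [htt])
          · intro h t t' x hx
            rw [T_apply, T_apply] at hx
            exact h (add_left_cancel hx)
        simp only [h12, sign_T h2]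
        split_ifs <;> simp
      simp only [h9, h11]
      by_cases hi : Function.Injective a <;> by_cases h0 : a t0 = 0 <;> simp [hi, h0]
  rw [h7, ← Finset.sum_filter, Finset.sum_const, nsmul_eq_mul, mul_one]
  exact cc_ne_zero t0 hle

end trans

end Pool.Agent.helper14.Kumar
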