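import Pool.Agent.helper15.KBase
import Pool.Agent.helper14.Kumar.Trans

open Finset Matrix

namespace Pool.Agent.helper14.Kumar

open Pool.Agent.helper15.Kumar

section crit

variable {I W C : Type*} [Fintype I] [DecidableEq I]
  [Fintype W] [DecidableEq W] [Fintype C] [DecidableEq C]

/-- Signed count of the families of permutations compatible with a pattern. -/
def NN (lam : W → I → W ⊕ C) : ℤ :=
  ∑ σ : W → Equiv.Perm I, (∏ w, (Equiv.Perm.sign (σ w) : ℤ)) *
        (if ∀ w w' r r', lam w r = lam w' r' → σ w r = σ w' r' → r = r' then 1 else 0)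

theorem good_of_NN {K : Type*} [Field K] [CharZero K] {p : ℕ} [hp : Fact p.Prime]
    (hC : Fintype.card C = p - 1) (hI : Fintype.card I < p)
    (lam : W → I → W ⊕ C) (hlam : ∀ r, Function.Injective fun w => lam w r)
    (hZ : ((NN lam : ℤ) : ZMod p) ≠ 0) : Good K I (W ⊕ C) := by
  classical
  have hθ : ∀ r, ∃ e : Equiv.Perm (W ⊕ C), ∀ w, e (Sum.inl w) = lam w r := fun r =>
    exists_perm_extend (X := W ⊕ C) (U := W) Sum.inl Sum.inl_injective (fun w => lam w r) (hlam r)
  choose θ hθ using hθ
  have key := sum_ZZ (p := p) hC θ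
  have h1 : (∑ κ : W ⊕ C → Equiv.Perm I, ∏ w : W, eps (fun r => κ (θ r (Sum.inl w)) r) : ℤ) =
      ∑ κ : W ⊕ C → Equiv.Perm I, ∏ w : W, eps (fun r => κ (lam w r) r) := by
    refine Finset.sum_congr rfl fun κ _ => Finset.prod_congr rfl fun w _ => ?_
    simp_rw [hθ]
  rw [h1, sum_kappa lam hlam] at key
  by_contra hng
  have hz : ∀ τ : I → Equiv.Perm (W ⊕ C), ZZ τ = 0 := by
    intro τ
    by_contra hτ
    exact hng (good_of_ZZ_ne_zero τ hτ)
  simp_rw [hz] at key
  simp only [Int.cast_zero, Finset.sum_const_zero] at key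
  have h6 : ((∏ a, hcard lam a : ℕ) : ZMod p) ≠ 0 := by
    rw [Nat.cast_prod]
    rw [Finset.prod_ne_zero_iff]
    intro a _ h0
    rw [ZMod.natCast_eq_zero_iff] at h0
    have h7 := h0.trans (hcard_dvd lam a)
    rw [hp.out.dvd_factorial] at h7
    omega
  have h11 : ((-1 : ZMod p) ^ Fintype.card I) ≠ 0 := by
    apply pow_ne_zero
    exact neg_ne_zero.mpr one_ne_zero
  rw [Int.cast_mul, Int.cast_natCast] at key
  exact (mul_ne_zero h11 (mul_ne_zero h6 hZ)) key.symm

end crit

section link

variable {p : ℕ} [hp : Fact p.Prime]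
variable {W C : Type*} [Fintype W] [DecidableEq W] [Fintype C] [DecidableEq C]

/-- Nonzero residues. -/
abbrev NZ (p : ℕ) [Fact p.Prime] : Type := {x : ZMod p // x ≠ 0}

/-- The cyclic pattern. -/
def cyc (ι : ZMod p → W ⊕ C) (y : W → ZMod p) : W → NZ p → W ⊕ C :=
  fun w r => ι (y w + r.1)

lemma cyc_inj (ι : ZMod p → W ⊕ C) (hι : Function.Injective ι) (y : W → ZMod p)
    (hy : Function.Injective y) (r : NZ p) : Function.Injective fun w => cyc ι y w r := by
  intro w w' h
  exact hy (add_right_cancel (hι h))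

lemma NN_cyc (h2 : p ≠ 2) (ι : ZMod p → W ⊕ C) (hι : Function.Injective ι) (y : W → ZMod p)
    (hy : Function.Injective y) : NN (cyc ι y) = Mz (0 : ZMod p) y := by
  classical
  unfold Mz
  -- translate the columns
  rw [← Equiv.sum_comp (Equiv.piCongrRight fun t : W => Equiv.mulRight (T (- y t)))]
  have h1 : ∀ ρ : W → Equiv.Perm (ZMod p),
      (∀ t, ((Equiv.piCongrRight fun t : W => Equiv.mulRight (T (- y t))) ρ) t (y t) = 0) ↔
      ∀ t, ρ t 0 = 0 := by
    intro ρ
    refine forall_congr' fun t => ?_
    change (ρ t * T (- y t)) (y t) = 0 ↔ _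
    rw [Equiv.Perm.mul_apply, T_apply]
    simp
  simp only [h1]
  unfold NN
  refine Finset.sum_of_injOn (fun (σ : W → Equiv.Perm (NZ p)) t => Equiv.Perm.ofSubtype (σ t))
    ?_ ?_ ?_ ?_
  · intro a _ b _ hab
    funext t
    exact Equiv.Perm.ofSubtype_injective (congrFun hab t)
  · intro a _
    simp
  · intro ρ _ hρ
    rw [if_neg]
    intro h0
    apply hρ
    have h3 : ∀ t, ∀ x : ZMod p, (ρ t x ≠ 0) ↔ (x ≠ 0) := by
      intro t x
      rw [not_iff_not]
      constructor
      · intro hx
        apply (ρ t).injective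
        rw [hx, h0 t]
      · rintro rfl
        exact h0 t
    refine ⟨fun t => (ρ t).subtypePerm (h3 t), by simp, ?_⟩
    funext t
    refine Equiv.Perm.ofSubtype_subtypePerm (h3 t) ?_
    intro x hx
    rintro rfl
    exact hx (h0 t)
  · intro σ _
    have h3 : ∀ t, (Equiv.Perm.ofSubtype (σ t)) 0 = 0 := by
      intro t
      exact Equiv.Perm.ofSubtype_apply_of_not_mem (σ t) (by simp)
    rw [if_pos h3]
    have h4 : ∀ t (r : NZ p), (Equiv.Perm.ofSubtype (σ t)) r.1 = (σ t r).1 := by
      intro t r
      exact Equiv.Perm.ofSubtype_apply_coe (σ t) r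
    unfold D
    have h5 : ∀ t, Equiv.Perm.sign (((Equiv.piCongrRight fun t : W => Equiv.mulRight (T (- y t)))
        fun t => Equiv.Perm.ofSubtype (σ t)) t) = Equiv.Perm.sign (σ t) := by
      intro t
      change Equiv.Perm.sign (Equiv.Perm.ofSubtype (σ t) * T (- y t)) = _
      rw [Equiv.Perm.sign_mul, sign_T h2, mul_one, Equiv.Perm.sign_ofSubtype]
    simp only [h5]
    have h6 : ∀ t x, ((Equiv.piCongrRight fun t : W => Equiv.mulRight (T (- y t)))
        fun t => Equiv.Perm.ofSubtype (σ t)) t x = (Equiv.Perm.ofSubtype (σ t)) (x - y t) := by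
      intro t x
      change (Equiv.Perm.ofSubtype (σ t) * T (- y t)) x = _
      rw [Equiv.Perm.mul_apply, T_apply, sub_eq_add_neg]
    simp only [h6]
    have h7 : (∀ w w' r r', cyc ι y w r = cyc ι y w' r' → σ w r = σ w' r' → r = r') ↔
        (∀ t t' x, (Equiv.Perm.ofSubtype (σ t)) (x - y t) =
          (Equiv.Perm.ofSubtype (σ t')) (x - y t') → t = t') := by
      constructor
      · intro h t t' x hx
        by_cases hx1 : x - y t = 0
        · rw [hx1, h3] at hx
          have hx2 : x - y t' = 0 := by
            by_contra hne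
            have h8 := h4 t' ⟨x - y t', hne⟩
            simp only at h8
            rw [← hx] at h8
            exact (σ t' ⟨x - y t', hne⟩).2 h8.symm
          apply hy
          have e1 : x = y t := sub_eq_zero.mp hx1
          have e2 : x = y t' := sub_eq_zero.mp hx2
          rw [← e1, ← e2]
        · have hx2 : x - y t' ≠ 0 := by
            intro hx2
            rw [hx2, h3] at hx
            have h8 := h4 t ⟨x - y t, hx1⟩
            simp only at h8
            rw [hx] at h8
            exact (σ t ⟨x - y t, hx1⟩).2 h8.symm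
          have h9 := h t t' ⟨x - y t, hx1⟩ ⟨x - y t', hx2⟩ (by simp [cyc]) (by
            apply Subtype.ext
            rw [← h4, ← h4]
            exact hx)
          have h10 := congrArg Subtype.val h9
          simp only at h10
          exact hy (sub_right_injective h10)
      · intro h w w' r r' hl hs
        have h8 : y w + r.1 = y w' + r'.1 := hι hl
        have h9 := h w w' (y w + r.1) (by
          rw [add_sub_cancel_left, h8, add_sub_cancel_left, h4, h4, hs])
        subst h9
        exact Subtype.ext (add_left_cancel h8)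
    simp only [h7]
    split_ifs <;> simp

end link

end Pool.Agent.helper14.Kumar
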