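import Pool.Agent.helper15.KTwo
import Pool.Agent.helper15.KFrozen
import Pool.Agent.helper14.Kumar.Crit

open Finset Matrix

namespace Pool.Agent.helper14.Kumar

open Pool.Agent.helper15.Kumar

lemma goodN_block {p : ℕ} [hp : Fact p.Prime] (h2 : p ≠ 2) {w : ℕ} (hw : Even w) (h1 : 1 ≤ w)
    (hle : w + 1 ≤ p) : GoodN (w + (p - 1)) (p - 1) := by
  classical
  let t0 : Fin w := ⟨0, h1⟩
  let y : Fin w → ZMod p := fun t => ((t : ℕ) : ZMod p)
  have hy : Function.Injective y := by
    intro a b hab
    have h3 : ((a : ℕ) : ZMod p) = ((b : ℕ) : ZMod p) := hab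
    rw [ZMod.natCast_eq_natCast_iff'] at h3
    rw [Nat.mod_eq_of_lt (by omega), Nat.mod_eq_of_lt (by omega)] at h3
    exact Fin.ext h3
  have hcard : Fintype.card (ZMod p) ≤ Fintype.card (Fin w ⊕ Fin (p - 1)) := by
    rw [ZMod.card, Fintype.card_sum, Fintype.card_fin, Fintype.card_fin]
    omega
  obtain ⟨ι⟩ := Function.Embedding.nonempty_of_card_le hcard
  have hNZ : Fintype.card (NZ p) = p - 1 := by
    rw [Fintype.card_subtype_compl]
    simp [ZMod.card]
  have hW : Even (Fintype.card (Fin w)) := by simpa using hw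
  have hgood : Good ℂ (NZ p) (Fin w ⊕ Fin (p - 1)) := by
    refine good_of_NN (p := p) (by simp) (by rw [hNZ]; have := hp.out.pos; omega)
      (cyc ι y) (cyc_inj ι ι.injective y hy) ?_
    rw [NN_cyc h2 ι ι.injective y hy, Mz_eq_Lone hW t0 0 y hy, Int.cast_mul]
    refine mul_ne_zero ?_ (Lone_ne_zero h2 t0 (by rw [Fintype.card_fin]; omega))
    rw [Int.cast_natCast, Ne, ZMod.natCast_eq_zero_iff, hp.out.dvd_factorial, ZMod.card,
      Fintype.card_fin]
    omega
  have e1 : NZ p ≃ Fin (p - 1) := Fintype.equivFinOfCardEq hNZ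
  exact hgood.congr e1 finSumFinEquiv

lemma goodN_even {p : ℕ} (hp : p.Prime) (h2 : p ≠ 2) (n : ℕ) (hn : Even n) (hle : p ≤ n + 1) :
    GoodN n (p - 1) := by
  haveI : Fact p.Prime := ⟨hp⟩
  have hp2 := hp.two_le
  have hodd : Odd p := hp.odd_of_ne_two h2
  induction n using Nat.strong_induction_on with
  | _ n ih =>
    by_cases h : n < 2 * (p - 1)
    · rcases Nat.lt_or_ge (p - 1) n with h1 | h1
      · have e : n = (n - (p - 1)) + (p - 1) := by omega
        rw [e]
        refine goodN_block h2 ?_ (by omega) (by omega)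
        obtain ⟨a, ha⟩ := hn
        obtain ⟨b, hb⟩ := hodd
        exact ⟨a - b, by omega⟩
      · have e : n = p - 1 := by omega
        rw [e]
        exact goodN_pred hp
    · have e : n = (n - (p - 1)) + (p - 1) := by omega
      rw [e]
      refine GoodN.add (ih (n - (p - 1)) (by omega) ?_ (by omega)) (goodN_pred hp)
      obtain ⟨a, ha⟩ := hn
      obtain ⟨b, hb⟩ := hodd
      exact ⟨a - b, by omega⟩

/-- **Kumar's conjecture holds below the largest prime.** -/
theorem kumar_of_prime {n p i : ℕ} (hn : Even n) (hp : p.Prime) (hle : p ≤ n + 1) (hi : i < p) :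
    KumarOccurs n i := by
  have hp2 := hp.two_le
  have hin : i ≤ n := by omega
  by_cases h2 : p = 2
  · subst h2
    have h3 : 3 ≤ n + 1 := by
      obtain ⟨a, ha⟩ := hn
      omega
    exact kumarOccurs_of_goodN hin
      ((goodN_even Nat.prime_three (by norm_num) n hn h3).mono (by omega))
  · exact kumarOccurs_of_goodN hin ((goodN_even hp h2 n hn hle).mono (by omega))

end Pool.Agent.helper14.Kumar
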