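import Pool.Agent.helper91.PNT

open Filter Topology

namespace Pool.Agent.helper14.Kumar

/-- For large `n` there is a prime in `((1 - ε) n, n]`. -/
theorem exists_prime_short {ε : ℝ} (hε : 0 < ε) : ∃ N : ℕ, ∀ n : ℕ, N ≤ n →
    ∃ p : ℕ, p.Prime ∧ p ≤ n ∧ (1 - ε) * n < p := by
  wlog h1 : ε < 1 generalizing ε with H
  · obtain ⟨N, hN⟩ := H (ε := 1 / 2) (by norm_num) (by norm_num)
    refine ⟨max N 1, fun n hn => ?_⟩
    obtain ⟨p, hp, hle, hlt⟩ := hN n (by omega)
    refine ⟨p, hp, hle, lt_of_le_of_lt ?_ hlt⟩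
    have : (0 : ℝ) ≤ n := Nat.cast_nonneg n
    push Not at h1
    nlinarith
  have t1 := Pool.Agent.helper91.PNT.theta_tendsto
  have hc : 0 < 1 - ε := by linarith
  have t2 : Tendsto (fun x : ℝ => Chebyshev.theta ((1 - ε) * x) / ((1 - ε) * x)) atTop (𝓝 1) :=
    t1.comp (Filter.Tendsto.const_mul_atTop hc tendsto_id)
  have t3 : Tendsto (fun x : ℝ => Chebyshev.theta x / x -
      (1 - ε) * (Chebyshev.theta ((1 - ε) * x) / ((1 - ε) * x))) atTop (𝓝 (1 - (1 - ε) * 1)) :=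
    t1.sub (t2.const_mul _)
  have t4 : Tendsto (fun n : ℕ => Chebyshev.theta (n : ℝ) / n -
      (1 - ε) * (Chebyshev.theta ((1 - ε) * n) / ((1 - ε) * n))) atTop (𝓝 (1 - (1 - ε) * 1)) :=
    t3.comp tendsto_natCast_atTop_atTop
  have t5 := t4.eventually (lt_mem_nhds (show (0 : ℝ) < 1 - (1 - ε) * 1 by linarith))
  obtain ⟨N, hN⟩ := eventually_atTop.mp t5
  refine ⟨max N 1, fun n hn => ?_⟩
  by_contra hcon
  push Not at hcon
  have hn0 : (0 : ℝ) < n := by
    have : 0 < n := by omega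
    exact_mod_cast this
  have key := hN n (by omega)
  have heq : Chebyshev.theta (n : ℝ) = Chebyshev.theta ((1 - ε) * n) := by
    unfold Chebyshev.theta
    symm
    apply Finset.sum_subset_zero_on_sdiff
    · intro q hq
      simp only [Finset.mem_filter, Finset.mem_Ioc] at hq ⊢
      refine ⟨⟨hq.1.1, hq.1.2.trans ?_⟩, hq.2⟩
      apply Nat.floor_le_floor
      nlinarith
    · intro q hq
      exfalso
      rw [Finset.mem_sdiff, Finset.mem_filter, Finset.mem_filter, Finset.mem_Ioc,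
        Finset.mem_Ioc, Nat.floor_natCast] at hq
      obtain ⟨⟨⟨hq0, hqn⟩, hqp⟩, hq2⟩ := hq
      apply hq2
      refine ⟨⟨hq0, ?_⟩, hqp⟩
      exact Nat.le_floor (hcon q hqp hqn)
    · intro q _
      rfl
  rw [heq] at key
  have h7 : (1 - ε) * (Chebyshev.theta ((1 - ε) * n) / ((1 - ε) * n)) =
      Chebyshev.theta ((1 - ε) * n) / n := by
    field_simp
  rw [h7] at key
  simp at key

end Pool.Agent.helper14.Kumar
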