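import Pool.Agent.helper14.Kumar.Fix

open Finset

namespace Pool.Agent.helper14.Kumar

section general

variable {W Z : Type*} [Fintype W] [DecidableEq W] [Fintype Z] [DecidableEq Z]

/-- Signed indicator of families of pairwise discordant permutations. -/
def D (π : W → Equiv.Perm Z) : ℤ :=
  if ∀ t t' x, π t x = π t' x → t = t' then ∏ t, (Equiv.Perm.sign (π t) : ℤ) else 0

lemma prod_sign_const (hW : Even (Fintype.card W)) (g : Equiv.Perm Z) :
    ∏ _t : W, (Equiv.Perm.sign g : ℤ) = 1 := by
  rw [Finset.prod_const, Finset.card_univ]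
  obtain ⟨k, hk⟩ := hW
  rw [hk, ← two_mul, pow_mul]
  rcases Int.units_eq_one_or (Equiv.Perm.sign g) with h | h <;> simp [h]

lemma D_mul_left (hW : Even (Fintype.card W)) (g : Equiv.Perm Z) (π : W → Equiv.Perm Z) :
    D (fun t => g * π t) = D π := by
  unfold D
  have h1 : (∀ t t' x, (g * π t) x = (g * π t') x → t = t') ↔
      (∀ t t' x, π t x = π t' x → t = t') := by
    simp [Equiv.Perm.mul_apply]
  simp only [h1, Equiv.Perm.sign_mul, Units.val_mul, Finset.prod_mul_distrib,
    prod_sign_const hW g, one_mul]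

lemma D_mul_right (hW : Even (Fintype.card W)) (g : Equiv.Perm Z) (π : W → Equiv.Perm Z) :
    D (fun t => π t * g) = D π := by
  unfold D
  have h1 : (∀ t t' x, (π t * g) x = (π t' * g) x → t = t') ↔
      (∀ t t' x, π t x = π t' x → t = t') := by
    constructor
    · intro h t t' x hx
      exact h t t' (g⁻¹ x) (by simpa [Equiv.Perm.mul_apply] using hx)
    · intro h t t' x hx
      exact h t t' (g x) hx
  simp only [h1, Equiv.Perm.sign_mul, Units.val_mul, Finset.prod_mul_distrib,
    prod_sign_const hW g, mul_one]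

/-- All discordant families, with sign. -/
def Lall (W Z : Type*) [Fintype W] [DecidableEq W] [Fintype Z] [DecidableEq Z] : ℤ :=
  ∑ π : W → Equiv.Perm Z, D π

/-- Discordant families whose member `t0` is the identity, with sign. -/
def Lone (Z : Type*) [Fintype Z] [DecidableEq Z] (t0 : W) : ℤ :=
  ∑ π : W → Equiv.Perm Z, if π t0 = 1 then D π else 0

/-- Discordant families with prescribed zeros, with sign. -/
def Mz (z : Z) (y : W → Z) : ℤ :=
  ∑ π : W → Equiv.Perm Z, if ∀ t, π t (y t) = z then D π else 0

lemma Lall_eq_Lone (hW : Even (Fintype.card W)) (t0 : W) :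
    Lall W Z = ((Fintype.card Z).factorial : ℤ) * Lone Z t0 := by
  have h1 : Lall W Z = ∑ g : Equiv.Perm Z, ∑ π : W → Equiv.Perm Z,
      if π t0 = g then D π else 0 := by
    unfold Lall
    rw [Finset.sum_comm]
    refine Finset.sum_congr rfl fun π _ => ?_
    simp
  have h2 : ∀ g : Equiv.Perm Z, (∑ π : W → Equiv.Perm Z, if π t0 = g then D π else 0) =
      Lone Z t0 := by
    intro g
    unfold Lone
    rw [← Equiv.sum_comp (Equiv.piCongrRight fun _ : W => Equiv.mulLeft g)]
    refine Finset.sum_congr rfl fun π _ => ?_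
    have h3 : D ((Equiv.piCongrRight fun _ : W => Equiv.mulLeft g) π) = D π :=
      D_mul_left hW g π
    rw [h3]
    have h4 : ((Equiv.piCongrRight fun _ : W => Equiv.mulLeft g) π) t0 = g ↔ π t0 = 1 := by
      change g * π t0 = g ↔ _
      exact mul_eq_left
    simp only [h4]
  rw [h1, Finset.sum_congr rfl fun g _ => h2 g, Finset.sum_const, Finset.card_univ,
    Fintype.card_perm, nsmul_eq_mul]

lemma exists_perm_map {U X : Type*} [Fintype U] [Fintype X] [DecidableEq X]
    (i : U → X) (hi : Function.Injective i) (f : U → X) (hf : Function.Injective f) :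
    ∃ e : Equiv.Perm X, ∀ u, e (i u) = f u := by
  classical
  let e0 : {x // x ∈ Set.range i} ≃ {x // x ∈ Set.range f} :=
    (Equiv.ofInjective i hi).symm.trans (Equiv.ofInjective f hf)
  refine ⟨Equiv.extendSubtype e0, fun u => ?_⟩
  rw [Equiv.extendSubtype_apply_of_mem e0 (i u) ⟨u, rfl⟩]
  have : (⟨i u, ⟨u, rfl⟩⟩ : {x // x ∈ Set.range i}) = Equiv.ofInjective i hi u := rfl
  rw [this]
  simp [e0]

lemma Mz_eq (hW : Even (Fintype.card W)) (z : Z) (y y' : W → Z) (hy : Function.Injective y)
    (hy' : Function.Injective y') : Mz z y = Mz z y' := by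
  obtain ⟨ρ, hρ⟩ := exists_perm_map y hy y' hy'
  unfold Mz
  rw [← Equiv.sum_comp (Equiv.piCongrRight fun _ : W => Equiv.mulRight ρ)]
  refine Finset.sum_congr rfl fun π _ => ?_
  have h3 : D ((Equiv.piCongrRight fun _ : W => Equiv.mulRight ρ) π) = D π :=
    D_mul_right hW ρ π
  rw [h3]
  have h4 : (∀ t, ((Equiv.piCongrRight fun _ : W => Equiv.mulRight ρ) π) t (y t) = z) ↔
      ∀ t, π t (y' t) = z := by
    refine forall_congr' fun t => ?_
    change (π t * ρ) (y t) = z ↔ _
    rw [Equiv.Perm.mul_apply, hρ]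
  simp only [h4]

lemma Mz_not_injective (z : Z) (y : W → Z) (hy : ¬ Function.Injective y) : Mz z y = 0 := by
  unfold Mz
  apply Finset.sum_eq_zero
  intro π _
  split_ifs with h
  · unfold D
    rw [if_neg]
    intro hd
    apply hy
    intro t t' htt
    refine hd t t' (y t) ?_
    rw [h t, htt, h t']
  · rfl

lemma Lall_eq_Mz (hW : Even (Fintype.card W)) (z : Z) (y : W → Z) (hy : Function.Injective y) :
    Lall W Z = ((Fintype.card Z).descFactorial (Fintype.card W) : ℤ) * Mz z y := by
  have h1 : Lall W Z = ∑ y' : W → Z, Mz z y' := by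
    unfold Lall Mz
    rw [Finset.sum_comm]
    refine Finset.sum_congr rfl fun π _ => ?_
    have h2 : ∀ y' : W → Z, (∀ t, π t (y' t) = z) ↔ (y' = fun t => (π t)⁻¹ z) := by
      intro y'
      constructor
      · intro h
        funext t
        rw [← h t]
        simp
      · rintro rfl t
        simp
    simp only [h2]
    simp
  have h3 : ∀ y' : W → Z, Mz z y' = if Function.Injective y' then Mz z y else 0 := by
    intro y'
    split_ifs with h
    · exact Mz_eq hW z y' y h hy
    · exact Mz_not_injective z y' h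
  rw [h1, Finset.sum_congr rfl fun y' _ => h3 y', ← Finset.sum_filter, Finset.sum_const,
    nsmul_eq_mul]
  congr 2
  rw [← Fintype.card_subtype, ← Fintype.card_embedding_eq]
  exact Fintype.card_congr (Equiv.subtypeInjectiveEquivEmbedding W Z)

lemma Mz_eq_Lone (hW : Even (Fintype.card W)) (t0 : W) (z : Z) (y : W → Z)
    (hy : Function.Injective y) :
    Mz z y = ((Fintype.card Z - Fintype.card W).factorial : ℤ) * Lone Z t0 := by
  have hle : Fintype.card W ≤ Fintype.card Z := Fintype.card_le_of_injective y hy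
  have h1 := Lall_eq_Mz hW z y hy
  rw [Lall_eq_Lone hW t0] at h1
  have h2 := Nat.factorial_mul_descFactorial hle
  have h3 : ((Fintype.card Z).descFactorial (Fintype.card W) : ℤ) ≠ 0 := by
    have : (Fintype.card Z).descFactorial (Fintype.card W) ≠ 0 := by
      rw [Ne, Nat.descFactorial_eq_zero_iff_lt]
      omega
    exact_mod_cast this
  apply mul_left_cancel₀ h3
  rw [← h1, ← h2]
  push_cast
  ring

end general

end Pool.Agent.helper14.Kumar
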