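import Mathlib

open Finset

namespace Pool.Agent.helper14.Kumar

/-- A sum over a finite set with a symmetry of order `p` is, mod `p`, the sum over the fixed
points. -/
lemma sum_eq_sum_fixed {p : ℕ} [Fact p.Prime] {α : Type*} [Fintype α] [DecidableEq α]
    (e : Equiv.Perm α) (he : e ^ p = 1) (F : α → ZMod p) (hF : ∀ x, F (e x) = F x) :
    ∑ x, F x = ∑ x, if e x = x then F x else 0 := by
  classical
  have h1 : ∀ v : ZMod p, (((univ.filter fun x => F x = v).card : ℕ) : ZMod p) =
      (((univ.filter fun x => F x = v ∧ e x = x).card : ℕ) : ZMod p) := by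
    intro v
    let P : α → Prop := fun x => F x = v
    have hP : ∀ x, P (e x) ↔ P x := by
      intro x
      simp only [P, hF]
    let f : Equiv.Perm {x // P x} := e.subtypePerm hP
    have hf : f ^ p ^ 1 = 1 := by
      ext ⟨x, hx⟩
      simp only [f, Equiv.Perm.subtypePerm_pow, Equiv.Perm.subtypePerm_apply, pow_one]
      simp [he]
    have h2 := Equiv.Perm.card_compl_support_modEq hf
    have h3 : Fintype.card {x // P x} = (univ.filter fun x => F x = v).card := by
      rw [Fintype.card_subtype]
    have h4 : (f.supportᶜ).card = (univ.filter fun x => F x = v ∧ e x = x).card := by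
      refine Finset.card_bij (fun y _ => y.1) ?_ ?_ ?_
      · rintro ⟨y, hy⟩ hmem
        rw [Finset.mem_compl, Equiv.Perm.notMem_support] at hmem
        have h6 := congrArg Subtype.val hmem
        simp only [Finset.mem_filter, Finset.mem_univ, true_and]
        exact ⟨hy, h6⟩
      · rintro ⟨y, hy⟩ _ ⟨z, hz⟩ _ h
        exact Subtype.ext h
      · intro y hy
        simp only [Finset.mem_filter, Finset.mem_univ, true_and] at hy
        refine ⟨⟨y, hy.1⟩, ?_, rfl⟩
        rw [Finset.mem_compl, Equiv.Perm.notMem_support]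
        exact Subtype.ext hy.2
    rw [h3, h4] at h2
    exact ((ZMod.natCast_eq_natCast_iff _ _ _).mpr h2).symm
  have h2 : ∀ G : α → ZMod p, ∑ x, G x = ∑ v : ZMod p, ∑ x ∈ univ.filter (fun x => F x = v), G x := by
    intro G
    exact (Finset.sum_fiberwise (univ : Finset α) F G).symm
  rw [h2, h2 (fun x => if e x = x then F x else 0)]
  refine Finset.sum_congr rfl fun v _ => ?_
  rw [← Finset.sum_filter, Finset.filter_filter]
  rw [Finset.sum_congr rfl (g := fun _ => v) (fun x hx => (Finset.mem_filter.mp hx).2)]
  rw [Finset.sum_congr (s₁ := univ.filter fun x => F x = v ∧ e x = x) rfl (g := fun _ => v)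
    (fun x hx => (Finset.mem_filter.mp hx).2.1)]
  rw [Finset.sum_const, Finset.sum_const, nsmul_eq_mul, nsmul_eq_mul, h1]

end Pool.Agent.helper14.Kumar
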